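import Pool.Agent.H99.BC.Close
import Pool.Agent.H99.BC.Move

/-!
# Project BC, block NECK for `N = 2`

`F` is a quasi-cocycle in its two points; for `a` ahead and `b` behind it is the value at the ends
of the line, up to a constant (parabolic motions).
-/

set_option autoImplicit false

open Real
open scoped MatrixGroups UpperHalfPlane

namespace Pool.Agent.Helper59.BC

open Pool.Agent.Helper11.BC Pool.Agent.H99.BC

variable (S : Sys 2)

private theorem quasi (x y z : GP) (s t : ℍ) :
    |S.F [y, z] s t - S.F [x, z] s t + S.F [x, y] s t| ≤ 2 * S.C := by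
  have h1 := S.F_bd [x, y, z] s t rfl
  have h2 : dl (fun X => S.F X s t) [x, y, z] =
      S.F [y, z] s t - S.F [x, z] s t + S.F [x, y] s t := by
    unfold dl
    simp [Finset.sum_range_succ]
    ring
  rw [h2] at h1
  rw [h1]
  refine (abs_sub _ _).trans ?_
  have h3 := S.f0_bdd s [x, y, z] rfl
  have h4 := S.f0_bdd t [x, y, z] rfl
  linarith

private theorem F_self (x : GP) (s t : ℍ) : |S.F [x, x] s t| ≤ 2 * S.C := by
  have h := quasi S x x x s t
  rwa [sub_self, zero_add] at h

private theorem F_symm (x y : GP) (s t : ℍ) : |S.F [x, y] s t + S.F [y, x] s t| ≤ 4 * S.C := by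
  have h1 := quasi S x y x s t
  have h2 := F_self S x s t
  rw [abs_le] at h1 h2 ⊢
  constructor <;> linarith

private theorem ahead_self (n : G) (τ : ℝ) : Ahead n τ n := by
  unfold Ahead
  rw [inv_mul_cancel]
  simp

private theorem behind_flip_self (n : G) (τ : ℝ) : Behind n τ (n * Pool.Agent.Helper11.BC.flip) := by
  have h1 : n⁻¹ * (n * Pool.Agent.Helper11.BC.flip) = Pool.Agent.Helper11.BC.flip :=
    inv_mul_cancel_left _ _
  unfold Behind
  rw [h1, flip00, abs_zero]
  positivity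

private theorem exp_le_one' {x : ℝ} (h : x ≤ 0) : 16 * exp x ≤ 16 := by
  have := exp_le_one_iff.2 h
  linarith

/-- change of the point ahead -/
private theorem move_a {n a a' b : G} {τ₁ τ₂ : ℝ} (hτ : τ₁ + 1 ≤ τ₂) (ha : Ahead n τ₂ a)
    (ha' : Ahead n τ₂ a') (hb : Behind n τ₁ b) :
    |S.F [GP.bdp a', GP.bdp b] (gam n τ₁) (gam n τ₂) -
      S.F [GP.bdp a, GP.bdp b] (gam n τ₁) (gam n τ₂)| ≤ 36 * S.C := by
  have h1 := not_sameEnd (by linarith : τ₁ < τ₂) hb ha
  have h2 := not_sameEnd (by linarith : τ₁ < τ₂) hb ha'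
  have h3 := transport S (par b a' a) [GP.bdp a', GP.bdp b] [GP.bdp a, GP.bdp b] (gam n τ₁)
    (gam n τ₂) rfl (by
      refine List.Forall₂.cons ?_ (List.Forall₂.cons ?_ List.Forall₂.nil)
      · exact par_map h2 h1
      · exact par_fix b a' a)
  have h4 := disp_gam hτ le_rfl hb ha ha'
  have h5 := disp_gam (τ := τ₂) hτ (by linarith) hb ha ha'
  have h6 : (List.zipWith (mv (par b a' a)) [GP.bdp a', GP.bdp b] [GP.bdp a, GP.bdp b]).sum = 0 := by
    simp [mv]
  rw [h6, mul_zero, add_zero] at h3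
  have h7 := exp_le_one' (x := τ₁ - τ₂) (by linarith)
  have h8 := exp_le_one' (x := τ₂ - τ₂) (by linarith)
  have h9 := S.one_le_C
  refine h3.trans ?_
  nlinarith

/-- change of the point behind -/
private theorem move_b {n a b b' : G} {τ₁ τ₂ : ℝ} (hτ : τ₁ + 1 ≤ τ₂) (ha : Ahead n τ₂ a)
    (hb : Behind n τ₁ b) (hb' : Behind n τ₁ b') :
    |S.F [GP.bdp a, GP.bdp b'] (gam n τ₁) (gam n τ₂) -
      S.F [GP.bdp a, GP.bdp b] (gam n τ₁) (gam n τ₂)| ≤ 36 * S.C := by
  have h1 : ¬ SameEnd a b := fun h =>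
    not_sameEnd (by linarith : τ₁ < τ₂) hb ha (sameEnd_symm h)
  have h2 : ¬ SameEnd a b' := fun h =>
    not_sameEnd (by linarith : τ₁ < τ₂) hb' ha (sameEnd_symm h)
  have h3 := transport S (par a b' b) [GP.bdp a, GP.bdp b'] [GP.bdp a, GP.bdp b] (gam n τ₁)
    (gam n τ₂) rfl (by
      refine List.Forall₂.cons ?_ (List.Forall₂.cons ?_ List.Forall₂.nil)
      · exact par_fix a b' b
      · exact par_map h2 h1)
  have h4 := disp_gam' (τ := τ₁) hτ (by linarith) ha hb hb'
  have h5 := disp_gam' (τ := τ₂) hτ le_rfl ha hb hb'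
  have h6 : (List.zipWith (mv (par a b' b)) [GP.bdp a, GP.bdp b'] [GP.bdp a, GP.bdp b]).sum = 0 := by
    simp [mv]
  rw [h6, mul_zero, add_zero] at h3
  have h7 := exp_le_one' (x := τ₁ - τ₁) (by linarith)
  have h8 := exp_le_one' (x := τ₁ - τ₂) (by linarith)
  have h9 := S.one_le_C
  refine h3.trans ?_
  nlinarith

/-- the value at the ends of the line `n` -/
private noncomputable def ends (n : G) (s t : ℍ) : ℝ :=
  S.F [GP.bdp n, GP.bdp (n * Pool.Agent.Helper11.BC.flip)] s t

private theorem mixed {n a b : G} {τ₁ τ₂ : ℝ} (hτ : τ₁ + 1 ≤ τ₂) (ha : Ahead n τ₂ a)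
    (hb : Behind n τ₁ b) :
    |S.F [GP.bdp a, GP.bdp b] (gam n τ₁) (gam n τ₂) - ends S n (gam n τ₁) (gam n τ₂)| ≤
      72 * S.C := by
  have h1 := move_a S hτ (ahead_self n τ₂) ha hb
  have h2 := move_b S hτ (ahead_self n τ₂) (behind_flip_self n τ₁) hb
  unfold ends
  rw [abs_le] at h1 h2 ⊢
  constructor <;> linarith

private theorem pure_b {n b b' : G} {τ₁ τ₂ : ℝ} (hτ : τ₁ + 1 ≤ τ₂)
    (hb : Behind n τ₁ b) (hb' : Behind n τ₁ b') :
    |S.F [GP.bdp b, GP.bdp b'] (gam n τ₁) (gam n τ₂)| ≤ 42 * S.C := by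
  have h1 := move_b S hτ (ahead_self n τ₂) hb hb'
  have h2 := quasi S (GP.bdp b) (GP.bdp n) (GP.bdp b') (gam n τ₁) (gam n τ₂)
  have h3 := F_symm S (GP.bdp b) (GP.bdp n) (gam n τ₁) (gam n τ₂)
  rw [abs_le] at h1 h2 h3 ⊢
  constructor <;> linarith

private theorem pure_a {n a a' : G} {τ₁ τ₂ : ℝ} (hτ : τ₁ + 1 ≤ τ₂)
    (ha : Ahead n τ₂ a) (ha' : Ahead n τ₂ a') :
    |S.F [GP.bdp a, GP.bdp a'] (gam n τ₁) (gam n τ₂)| ≤ 42 * S.C := by
  have h1 := move_a S hτ ha ha' (behind_flip_self n τ₁)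
  have h2 := quasi S (GP.bdp a) (GP.bdp (n * Pool.Agent.Helper11.BC.flip)) (GP.bdp a')
    (gam n τ₁) (gam n τ₂)
  have h3 := F_symm S (GP.bdp (n * Pool.Agent.Helper11.BC.flip)) (GP.bdp a')
    (gam n τ₁) (gam n τ₂)
  rw [abs_le] at h1 h2 h3 ⊢
  constructor <;> linarith

/-- the interior point against its end -/
private noncomputable def uu (c : G) (s t : ℍ) : ℝ := S.F [GP.int c, GP.bdp c] s t

private theorem int_bdp (c c' : G) (s t : ℍ) :
    |S.F [GP.int c, GP.int c'] s t -
      (uu S c s t - uu S c' s t + S.F [GP.bdp c, GP.bdp c'] s t)| ≤ 8 * S.C := by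
  have h1 := quasi S (GP.int c) (GP.bdp c) (GP.int c') s t
  have h2 := quasi S (GP.bdp c) (GP.bdp c') (GP.int c') s t
  have h3 := F_symm S (GP.bdp c') (GP.int c') s t
  unfold uu
  rw [abs_le] at h1 h2 h3 ⊢
  constructor <;> linarith

open Classical in
/-- the coefficient of the type -/
private noncomputable def sg (A : Finset G) (c : G) : ℝ := if c ∈ A then -(1 / 2) else 1 / 2

private theorem sg_abs (A : Finset G) (c : G) : |sg A c| = 1 / 2 := by
  unfold sg
  split_ifs
  · rw [abs_neg, abs_of_pos]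
    norm_num
  · rw [abs_of_pos]
    norm_num

/-- the functions `g` -/
private noncomputable def gt2 (n : G) (A : Finset G) : List G → ℍ → ℍ → ℝ
  | [c], s, t => -uu S c s t + sg A c * ends S n s t
  | _, _, _ => 0

private theorem gt2_one (n : G) (A : Finset G) (c : G) (s t : ℍ) :
    gt2 S n A [c] s t = -uu S c s t + sg A c * ends S n s t := rfl

private theorem F_two (x y : GP) (s t : ℍ) : |S.F [x, y] s t| ≤ S.C + S.C * dist s t :=
  abs_F_le S (by rfl) s t

/-- change of the end points of the path -/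
private theorem path (x y : GP) {s t s' t' : ℍ} {c : ℝ} (h1 : dist s s' ≤ c)
    (h2 : dist t t' ≤ c) :
    |S.F [x, y] s t - S.F [x, y] s' t'| ≤ 2 * (S.C + S.C * c) := by
  have e1 := S.F_add [x, y] s s' t (by rfl)
  have e2 := S.F_add [x, y] s' t' t (by rfl)
  have h3 := F_two S x y s s'
  have h4 := F_two S x y t' t
  rw [dist_comm t' t] at h4
  have h5 := S.one_le_C
  have h6 : S.C * dist s s' ≤ S.C * c := mul_le_mul_of_nonneg_left h1 (by linarith)
  have h7 : S.C * dist t t' ≤ S.C * c := mul_le_mul_of_nonneg_left h2 (by linarith)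
  rw [abs_le] at h3 h4 ⊢
  constructor <;> linarith

private theorem ends_close {C₀ : ℝ} (h0 : 0 ≤ C₀) {n n' : G} {τ₁ τ₂ τ₁' τ₂' : ℝ}
    (h : τ₁ ≤ τ₂) (h' : τ₁' ≤ τ₂') (h1 : dist (gam n τ₁) (gam n' τ₁') ≤ C₀)
    (h2 : dist (gam n τ₂) (gam n' τ₂') ≤ C₀) :
    |ends S n (gam n τ₁) (gam n τ₂) - ends S n' (gam n' τ₁') (gam n' τ₂')| ≤
      100 * (S.C + S.C * (C₀ + 2)) := by
  have hC := S.one_le_C
  have hp := path S (GP.bdp n') (GP.bdp (n' * Pool.Agent.Helper11.BC.flip)) h1 h2
  have hCC : 0 ≤ S.C * C₀ := mul_nonneg (by linarith) h0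
  by_cases hL : 3 * C₀ + 5 ≤ τ₂ - τ₁
  · have h3 := close_ahead h0 h h' h1 h2 (by linarith)
    have h4 := close_behind h0 h h' h1 h2 (by linarith)
    have h5 := mixed S (τ₁ := τ₁ + C₀ + 2) (τ₂ := τ₂ - C₀ - 2) (by linarith) h3 h4
    have h6 := path S (GP.bdp n') (GP.bdp (n' * Pool.Agent.Helper11.BC.flip))
      (s := gam n τ₁) (t := gam n τ₂) (s' := gam n (τ₁ + C₀ + 2)) (t' := gam n (τ₂ - C₀ - 2))
      (c := C₀ + 2) (by
        rw [dist_gam, show τ₁ - (τ₁ + C₀ + 2) = -(C₀ + 2) by ring, abs_neg, abs_of_nonneg]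
        linarith) (by
        rw [dist_gam, show τ₂ - (τ₂ - C₀ - 2) = C₀ + 2 by ring, abs_of_nonneg]
        linarith)
    have h7 := path S (GP.bdp n) (GP.bdp (n * Pool.Agent.Helper11.BC.flip))
      (s := gam n τ₁) (t := gam n τ₂) (s' := gam n (τ₁ + C₀ + 2)) (t' := gam n (τ₂ - C₀ - 2))
      (c := C₀ + 2) (by
        rw [dist_gam, show τ₁ - (τ₁ + C₀ + 2) = -(C₀ + 2) by ring, abs_neg, abs_of_nonneg]
        linarith) (by
        rw [dist_gam, show τ₂ - (τ₂ - C₀ - 2) = C₀ + 2 by ring, abs_of_nonneg]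
        linarith)
    unfold ends at h5 ⊢
    rw [abs_le] at h5 h6 h7 hp ⊢
    constructor <;> nlinarith
  · have h3 : dist (gam n τ₁) (gam n τ₂) ≤ 3 * C₀ + 5 := by
      rw [dist_gam, abs_sub_comm, abs_of_nonneg (by linarith)]
      linarith
    have h4 := F_two S (GP.bdp n) (GP.bdp (n * Pool.Agent.Helper11.BC.flip)) (gam n τ₁)
      (gam n τ₂)
    have h5 := F_two S (GP.bdp n') (GP.bdp (n' * Pool.Agent.Helper11.BC.flip)) (gam n τ₁)
      (gam n τ₂)
    have h6 : S.C * dist (gam n τ₁) (gam n τ₂) ≤ S.C * (3 * C₀ + 5) :=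
      mul_le_mul_of_nonneg_left h3 (by linarith)
    unfold ends
    rw [abs_le] at h4 h5 hp ⊢
    constructor <;> nlinarith

open Classical in
theorem exists_neck2 : Nonempty (Neck S) := by
  have hC := S.one_le_C
  refine ⟨{ gt := gt2 S
            K := 100 * S.C
            one_le_K := by linarith
            gt_add := ?_
            gt_growth := ?_
            gt_inv := ?_
            neck := ?_
            close := ?_ }⟩
  · intro n A C' s t u hl
    obtain ⟨c, rfl⟩ := List.length_eq_one_iff.1 (by omega : C'.length = 1)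
    rw [gt2_one, gt2_one, gt2_one]
    unfold uu ends
    rw [← S.F_add [GP.int c, GP.bdp c] s t u rfl,
      ← S.F_add [GP.bdp n, GP.bdp (n * Pool.Agent.Helper11.BC.flip)] s t u rfl]
    ring
  · intro n A C' s t hl
    obtain ⟨c, rfl⟩ := List.length_eq_one_iff.1 (by omega : C'.length = 1)
    rw [gt2_one]
    have h1 := F_two S (GP.int c) (GP.bdp c) s t
    have h2 := F_two S (GP.bdp n) (GP.bdp (n * Pool.Agent.Helper11.BC.flip)) s t
    have h3 := sg_abs A c
    have h4 : |sg A c * ends S n s t| = 1 / 2 * |ends S n s t| := by rw [abs_mul, h3]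
    refine (abs_add_le _ _).trans ?_
    rw [h4, abs_neg]
    unfold uu ends
    have h5 := dist_nonneg (x := s) (y := t)
    nlinarith
  · intro h n A A' C' s t hA
    match C' with
    | [] => rfl
    | [c] =>
      show gt2 S (h * n) A' [h * c] (h • s) (h • t) = _
      rw [gt2_one, gt2_one]
      have h1 : uu S (h * c) (h • s) (h • t) = uu S c s t :=
        S.F_inv h [GP.int c, GP.bdp c] s t
      have h2 : ends S (h * n) (h • s) (h • t) = ends S n s t := by
        unfold ends
        rw [mul_assoc]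
        exact S.F_inv h [GP.bdp n, GP.bdp (n * Pool.Agent.Helper11.BC.flip)] s t
      have h3 : sg A' (h * c) = sg A c := by
        unfold sg
        have h4 := hA c (List.mem_singleton.2 rfl)
        by_cases h5 : c ∈ A
        · rw [if_pos h5, if_pos (h4.2 h5)]
        · rw [if_neg h5, if_neg (fun h6 => h5 (h4.1 h6))]
      rw [h1, h2, h3]
    | c :: c' :: l => rfl
  · intro n τ₁ τ₂ A C hτ hg hl hA hB
    obtain ⟨c, c', rfl⟩ := List.length_eq_two.1 hl
    have e1 : dl (fun C' => gt2 S n A C' (gam n τ₁) (gam n τ₂)) [c, c'] =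
        gt2 S n A [c'] (gam n τ₁) (gam n τ₂) - gt2 S n A [c] (gam n τ₁) (gam n τ₂) := by
      unfold dl
      simp [Finset.sum_range_succ]
      ring
    rw [e1, gt2_one, gt2_one]
    show |S.F [GP.int c, GP.int c'] (gam n τ₁) (gam n τ₂) - _| ≤ _
    have h1 := int_bdp S c c' (gam n τ₁) (gam n τ₂)
    suffices h2 : |S.F [GP.bdp c, GP.bdp c'] (gam n τ₁) (gam n τ₂) -
        (sg A c' - sg A c) * ends S n (gam n τ₁) (gam n τ₂)| ≤ 76 * S.C by
      rw [abs_le] at h1 h2 ⊢
      constructor <;> nlinarith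
    by_cases hL : τ₁ + 1 ≤ τ₂
    · by_cases hc : c ∈ A
      · have hca := hA c (by simp) hc
        by_cases hc' : c' ∈ A
        · have h3 := pure_a S hL hca (hA c' (by simp) hc')
          have h4 : sg A c' - sg A c = 0 := by
            unfold sg
            rw [if_pos hc, if_pos hc']
            ring
          rw [h4, zero_mul, sub_zero]
          linarith
        · have h3 := mixed S hL hca (hB c' (by simp) hc')
          have h4 : sg A c' - sg A c = 1 := by
            unfold sg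
            rw [if_pos hc, if_neg hc']
            ring
          rw [h4, one_mul]
          linarith
      · have hcb := hB c (by simp) hc
        by_cases hc' : c' ∈ A
        · have h3 := mixed S hL (hA c' (by simp) hc') hcb
          have h5 := F_symm S (GP.bdp c) (GP.bdp c') (gam n τ₁) (gam n τ₂)
          have h4 : sg A c' - sg A c = -1 := by
            unfold sg
            rw [if_neg hc, if_pos hc']
            ring
          rw [h4]
          rw [abs_le] at h3 h5 ⊢
          constructor <;> linarith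
        · have h3 := pure_b S hL hcb (hB c' (by simp) hc')
          have h4 : sg A c' - sg A c = 0 := by
            unfold sg
            rw [if_neg hc, if_neg hc']
            ring
          rw [h4, zero_mul, sub_zero]
          linarith
    · have h3 := F_two S (GP.bdp c) (GP.bdp c') (gam n τ₁) (gam n τ₂)
      have h4 := F_two S (GP.bdp n) (GP.bdp (n * Pool.Agent.Helper11.BC.flip)) (gam n τ₁)
        (gam n τ₂)
      have h5 : dist (gam n τ₁) (gam n τ₂) ≤ 1 := by
        rw [dist_gam, abs_sub_comm, abs_of_nonneg (by linarith)]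
        linarith
      have h6 : S.C * dist (gam n τ₁) (gam n τ₂) ≤ S.C * 1 :=
        mul_le_mul_of_nonneg_left h5 (by linarith)
      have h7 : |sg A c' - sg A c| ≤ 1 := by
        have h8 := sg_abs A c
        have h9 := sg_abs A c'
        have := abs_sub (sg A c') (sg A c)
        linarith
      have h8 : |(sg A c' - sg A c) * ends S n (gam n τ₁) (gam n τ₂)| ≤
          1 * |ends S n (gam n τ₁) (gam n τ₂)| := by
        rw [abs_mul]
        exact mul_le_mul_of_nonneg_right h7 (abs_nonneg _)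
      refine (abs_sub _ _).trans ?_
      unfold ends at h8 ⊢
      linarith
  · intro C₀
    refine ⟨2 * (S.C + S.C * |C₀|) + 100 * (S.C + S.C * (|C₀| + 2)), ?_⟩
    intro n n' τ₁ τ₂ τ₁' τ₂' A C' h h' hg hl hA hB h1 h2
    have h0 : 0 ≤ C₀ := dist_nonneg.trans h1
    rw [abs_of_nonneg h0]
    obtain ⟨c, rfl⟩ := List.length_eq_one_iff.1 (by omega : C'.length = 1)
    rw [gt2_one, gt2_one]
    have h3 := path S (GP.int c) (GP.bdp c) h1 h2
    have h4 := ends_close S h0 h h' h1 h2
    have h5 : |sg A c * (ends S n (gam n τ₁) (gam n τ₂) - ends S n' (gam n' τ₁') (gam n' τ₂'))| ≤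
        100 * (S.C + S.C * (C₀ + 2)) := by
      rw [abs_mul, sg_abs]
      have := abs_nonneg (ends S n (gam n τ₁) (gam n τ₂) - ends S n' (gam n' τ₁') (gam n' τ₂'))
      linarith
    unfold uu
    rw [abs_le] at h3 h5 ⊢
    constructor <;> nlinarith

end Pool.Agent.Helper59.BC
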